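import Mathlib

set_option autoImplicit false

namespace Pool.Agent.Results.MP_891d15_co.Counter

/-- `e2 [s_1, ..., s_k] = sum over i < j of s_i s_j` -/
def e2 {n : ℕ} : List (ZMod n) → ZMod n
  | [] => 0
  | x :: l => x * l.sum + e2 l

/-- the least length that forces a subsequence with at least two terms and `e2 = 0` -/
noncomputable def D (n : ℕ) : ℕ :=
  sInf {l : ℕ | ∀ S : List (ZMod n), S.length = l →
    ∃ T : List (ZMod n), T.Sublist S ∧ 2 ≤ T.length ∧ e2 T = 0}

lemma key : ∀ a ∈ List.range 71, ∀ b ∈ List.range 5, 2 ≤ a + b →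
    e2 (List.replicate a (1 : ZMod 73) ++ List.replicate b 38) ≠ 0 := by
  decide +kernel

lemma free (T : List (ZMod 73))
    (h : T.Sublist (List.replicate 70 (1 : ZMod 73) ++ List.replicate 4 38))
    (h2 : 2 ≤ T.length) : e2 T ≠ 0 := by
  obtain ⟨T1, T2, rfl, h3, h4⟩ := List.sublist_append_iff.1 h
  obtain ⟨a, ha, rfl⟩ := List.sublist_replicate_iff.1 h3
  obtain ⟨b, hb, rfl⟩ := List.sublist_replicate_iff.1 h4
  refine key a (List.mem_range.2 (by omega)) b (List.mem_range.2 (by omega)) ?_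
  simpa using h2

theorem result :
    (∃ S : List (ZMod 73), S.length = 73 + 1 ∧
      ∀ T : List (ZMod 73), T.Sublist S → 2 ≤ T.length → e2 T ≠ 0) ∧
    ¬ ∀ p : ℕ, p.Prime → p % 4 = 1 → D p = p + 1 := by
  refine ⟨⟨_, by simp, free⟩, fun h => ?_⟩
  have h1 := h 73 (by norm_num) (by norm_num)
  have h2 : {l : ℕ | ∀ S : List (ZMod 73), S.length = l →
      ∃ T : List (ZMod 73), T.Sublist S ∧ 2 ≤ T.length ∧ e2 T = 0}.Nonempty := by
    apply Nat.nonempty_of_pos_sInf
    unfold D at h1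
    omega
  have h3 := Nat.sInf_mem h2
  unfold D at h1
  rw [h1] at h3
  obtain ⟨T, h4, h5, h6⟩ :=
    h3 (List.replicate 70 (1 : ZMod 73) ++ List.replicate 4 38) (by simp)
  exact free T h4 h5 h6

end Pool.Agent.Results.MP_891d15_co.Counter
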